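import Pool.Agent.Lib.MP_fa373d_co.ExpH

namespace Pool.Agent.Results.MP_fa373d_co.ExpGain

open Pool.Agent.Lib.MP_fa373d_co Pool.Agent.Lib.MP_fa373d_co.Exp

/-- Exponential improvement of the upper bound for every `r ≥ 4`. For every `r ≥ 2` and each of the
pairs `(m, δ)` of the list put `X = (r - 1) - δ ⌊(r - 1) / m⌋`; then `X ≥ 1`,
`gff r n ≤ C 2^((1 - 1/X) n)` for all `n`, and `sigmaPlus r ≤ 1 - 1/X`. Hence
`sigmaPlus r < (r-2)/(r-1)` for all `r ≥ 4`, `sigmaPlus 4 ≤ 343/543 < 0.6317`, and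
`sigmaPlus r ≤ 1 - 1.15/(r-1)` for all `r ≥ 1155`. -/
theorem result :
    (∀ r n : ℕ, 1 ≤ r →
      IsGreatest {k : ℕ | ∃ F : Finset (Fin n → Bool), FocalFree r n F ∧ F.card = k} (gff r n)) ∧
    (∀ r : ℕ, 2 ≤ r → ∀ p ∈ ([(3, 57 / 200), (4, 77 / 200), (5, 111 / 200), (7, 33 / 40),
        (40, 27 / 5)] : List (ℕ × ℝ)),
      1 ≤ (r : ℝ) - 1 - p.2 * (((r - 1) / p.1 : ℕ) : ℝ) ∧
      (∃ C : ℝ, 0 < C ∧ ∀ n : ℕ, (gff r n : ℝ)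
        ≤ C * 2 ^ ((1 - 1 / ((r : ℝ) - 1 - p.2 * (((r - 1) / p.1 : ℕ) : ℝ))) * n)) ∧
      sigmaPlus r ≤ 1 - 1 / ((r : ℝ) - 1 - p.2 * (((r - 1) / p.1 : ℕ) : ℝ))) ∧
    (∀ r : ℕ, 4 ≤ r → sigmaPlus r < ((r : ℝ) - 2) / ((r : ℝ) - 1)) ∧
    sigmaPlus 4 ≤ 343 / 543 ∧
    (∀ r : ℕ, 1155 ≤ r → sigmaPlus r ≤ 1 - 1.15 / ((r : ℝ) - 1)) := by
  refine ⟨fun r n hr => gff_isGreatest r n hr, fun r hr p hp => ?_, strict, ?_, large⟩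
  · have h := all_bounds r hr p hp
    unfold XX at h
    exact h
  · have h := (all_bounds 4 (by norm_num) (3, 57 / 200) (by simp)).2.2
    unfold XX at h
    norm_num at h
    exact h

end Pool.Agent.Results.MP_fa373d_co.ExpGain
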