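import Pool.Agent.Lib.MP_fa373d_co.LowE

namespace Pool.Agent.Results.MP_fa373d_co.LowerOrder

open Pool.Agent.Lib.MP_fa373d_co Pool.Agent.Lib.MP_fa373d_co.Low

/-- The order of magnitude of `1 - σ_r`. For every `r ≥ 3` there is `c > 0` with
`c * 2^((1 - 9.8/(r-1)) n) ≤ gff r n` for all `n`, so
`1 - 9.8/(r-1) ≤ sigmaMinus r ≤ sigmaPlus r ≤ 1 - 1/(r-1)`; hence `1 - sigmaMinus r` and
`1 - sigmaPlus r` both have exact order `1/r` as `r → ∞`, and for `r ≥ 892` the lower bound is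
larger than the known one, `1 - log_2 r / (r-1)`. -/
theorem result :
    (∀ r n : ℕ, 1 ≤ r →
      IsGreatest {k : ℕ | ∃ F : Finset (Fin n → Bool), FocalFree r n F ∧ F.card = k} (gff r n)) ∧
    (∀ r : ℕ, 3 ≤ r →
      (∃ c : ℝ, 0 < c ∧ ∀ n : ℕ, c * 2 ^ ((1 - 9.8 / ((r : ℝ) - 1)) * n) ≤ gff r n) ∧
      1 - 9.8 / ((r : ℝ) - 1) ≤ sigmaMinus r ∧ sigmaMinus r ≤ sigmaPlus r ∧
      sigmaPlus r ≤ 1 - 1 / ((r : ℝ) - 1)) ∧
    (∀ r : ℕ, 892 ≤ r → 1 - Real.logb 2 r / ((r : ℝ) - 1) < sigmaMinus r) ∧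
    (fun r : ℕ => 1 - sigmaMinus r) =Θ[Filter.atTop] (fun r : ℕ => 1 / (r : ℝ)) ∧
    (fun r : ℕ => 1 - sigmaPlus r) =Θ[Filter.atTop] (fun r : ℕ => 1 / (r : ℝ)) :=
  ⟨fun r n hr => gff_isGreatest r n hr, bounds, beats, order.1, order.2⟩

end Pool.Agent.Results.MP_fa373d_co.LowerOrder
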