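import Pool.Agent.Lib.MP_fa373d_co.SE.Result

namespace Pool.Agent.Results.MP_fa373d_co.SuperpolynomialGap

open Pool.Agent.Lib.MP_fa373d_co

/-- The gap between `gff r n` and the known upper bound is superpolynomial for every `r ≥ 3`.
`gff r n` is the maximum of the cardinalities of focal-free families;
`gff 3 n ≤ 2^(n/2 - n^(1/40))` for all `n ≥ 2^2400`; for every `r ≥ 3` and all large `n`,
`gff r n ≤ 2^((r-2)n/(r-1) - n^(1/40))`; hence for every real `A` the quantity `n^A` times the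
ratio of `gff r n` to the known upper bound `(r-1) 2^⌈(r-2)n/(r-1)⌉` tends to `0`. -/
theorem result :
    (∀ r n : ℕ, 1 ≤ r →
      IsGreatest {k : ℕ | ∃ F : Finset (Fin n → Bool), FocalFree r n F ∧ F.card = k} (gff r n)) ∧
    (∀ n : ℕ, 2 ^ 2400 ≤ n →
      (gff 3 n : ℝ) ≤ 2 ^ ((n : ℝ) / 2 - (n : ℝ) ^ (1 / 40 : ℝ))) ∧
    (∀ r : ℕ, 3 ≤ r → ∃ n0 : ℕ, ∀ n ≥ n0,
      (gff r n : ℝ) ≤ 2 ^ (((r : ℝ) - 2) * n / ((r : ℝ) - 1) - (n : ℝ) ^ (1 / 40 : ℝ))) ∧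
    (∀ r : ℕ, 3 ≤ r → ∀ A : ℝ,
      Filter.Tendsto (fun n : ℕ => (n : ℝ) ^ A * ((gff r n : ℝ)
        / (((r : ℝ) - 1) * 2 ^ ⌈((r : ℝ) - 2) * n / ((r : ℝ) - 1)⌉₊))) Filter.atTop (nhds 0)) :=
  ⟨fun r n hr => gff_isGreatest r n hr, SE.gff_three, SE.gff_all, SE.ratio⟩

end Pool.Agent.Results.MP_fa373d_co.SuperpolynomialGap
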