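import Pool.Agent.Lib.MP_fa373d_co.ThrC

namespace Pool.Agent.Results.MP_fa373d_co.ThreeLower

open Pool.Agent.Lib.MP_fa373d_co Pool.Agent.Lib.MP_fa373d_co.Thr

/-- A lower bound for `r = 3` above the random coding bound. There is `c > 0` with
`c * 2^((329/1584) n) ≤ gff 3 n` for all `n`, so `0.2077 < 329/1584 ≤ sigmaMinus 3`, while the random
coding bound is `1 - log_2 3 / (3 - 1) < 0.20755`. -/
theorem result :
    (∀ r n : ℕ, 1 ≤ r →
      IsGreatest {k : ℕ | ∃ F : Finset (Fin n → Bool), FocalFree r n F ∧ F.card = k} (gff r n)) ∧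
    (∃ c : ℝ, 0 < c ∧ ∀ n : ℕ, c * 2 ^ ((329 / 1584 : ℝ) * n) ≤ gff 3 n) ∧
    (329 / 1584 : ℝ) ≤ sigmaMinus 3 ∧ (0.2077 : ℝ) < sigmaMinus 3 ∧
    1 - Real.logb 2 3 / (3 - 1) < 0.20755 := by
  refine ⟨fun r n hr => gff_isGreatest r n hr, gff_three, sigma_three, ?_, ?_⟩
  · refine lt_of_lt_of_le ?_ sigma_three
    norm_num
  · have h := random_lt
    have e : (3 : ℝ) - 1 = 2 := by norm_num
    rw [e]
    exact h

end Pool.Agent.Results.MP_fa373d_co.ThreeLower
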